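import Pool.Agent.P.MP_daea48_ag.Top

/-! Rationally connected varieties over the function field of a real curve without real points
satisfy weak approximation. -/

open CategoryTheory AlgebraicGeometry Pool.Agent.P.MP_daea48_ag

namespace Pool.Agent.Results.MP_daea48_ag.WeakApprox

theorem result (C : Scheme.{0}) [IsIntegral C] (c : C ⟶ Spec (CommRingCat.of ℝ))
    [SmoothOfRelativeDimension 1 c] [IsProper c] [GeometricallyIntegral c]
    (hC : IsEmpty (Pts c (RingHom.id ℝ)))
    (X : Scheme.{0}) (s : X ⟶ Spec (CommRingCat.of C.functionField))
    [Smooth s] [IsProper s] [GeometricallyIntegral s] (hX : RatConn s) :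
    WeakApproxC C s :=
  letI := (Curve.jR c).toAlgebra
  Curve.weak c s (Top.main C.functionField (Curve.pointless c hC) X s hX).2

end Pool.Agent.Results.MP_daea48_ag.WeakApprox
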